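import Pool.Agent.Helper774.PQ.Main

set_option autoImplicit false

namespace Pool.Agent.Results.MP_10af71_co.LargeClosePrimes

/-- the set of all sums of subsets of `A`, the empty sum included -/
def subsetSums {n : ℕ} (A : Finset (ZMod n)) : Set (ZMod n) :=
  {x | ∃ B ⊆ A, ∑ b ∈ B, b = x}

/-- the sum of the absolute values of the representatives in `(-n/2, n/2]` of the elements of `A` -/
def norm {n : ℕ} (A : Finset (ZMod n)) : ℤ := ∑ a ∈ A, |ZMod.valMinAbs a|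

/-- the dilate `b · A` -/
def dilate {n : ℕ} (b : ZMod n) (A : Finset (ZMod n)) : Finset (ZMod n) :=
  A.image (fun a => b * a)

theorem dilate_dilate {n : ℕ} (u v : ZMod n) (huv : u * v = 1) (A : Finset (ZMod n)) :
    dilate u (dilate v A) = A := by
  unfold dilate
  ext x
  simp only [Finset.mem_image]
  constructor
  · rintro ⟨y, ⟨z, hz, rfl⟩, rfl⟩
    have h1 : u * (v * z) = z := by rw [← mul_assoc, huv, one_mul]
    rw [h1]
    exact hz
  · intro hx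
    exact ⟨v * x, ⟨x, hx, rfl⟩, by rw [← mul_assoc, huv, one_mul]⟩

/-- For all primes `p ≤ q ≤ p + ⌊2√(p-2)⌋ + 1` with `p` large enough, the sets `A ⊆ ℤ_{pq}` of size
`p + q - 1` with `ΣA ≠ ℤ_{pq}` are exactly the dilates of the sets of norm at most `pq - 2`. -/
theorem result : ∃ p₀ : ℕ, ∀ p q : ℕ, p.Prime → q.Prime → p₀ < p → p ≤ q →
    q ≤ p + ⌊2 * Real.sqrt ((p : ℝ) - 2)⌋₊ + 1 →
    ∀ A : Finset (ZMod (p * q)), A.card = p + q - 1 →
      (subsetSums A ≠ Set.univ ↔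
        ∃ b : ZMod (p * q), IsUnit b ∧
          ∃ A₀ : Finset (ZMod (p * q)), norm A₀ ≤ ((p * q : ℕ) : ℤ) - 2 ∧ A = dilate b A₀) := by
  obtain ⟨p₀, h⟩ := Pool.Agent.Helper774.PQ.main
  refine ⟨p₀, ?_⟩
  intro p q hp hq hp0 hpq hqp A hA
  have h1 : subsetSums A ≠ Set.univ ↔ ∃ x : ZMod (p * q), ∀ B ⊆ A, B.sum id ≠ x := by
    rw [Set.ne_univ_iff_exists_notMem]
    constructor
    · rintro ⟨x, hx⟩
      exact ⟨x, fun B hB h => hx ⟨B, hB, h⟩⟩
    · rintro ⟨x, hx⟩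
      exact ⟨x, fun ⟨B, hB, h⟩ => hx B hB h⟩
  rw [h1, h p q hp hq hp0 hpq hqp A hA]
  constructor
  · rintro ⟨b, ⟨u, rfl⟩, hb⟩
    exact ⟨(↑u⁻¹ : ZMod (p * q)), Units.isUnit _, dilate (u : ZMod (p * q)) A, hb,
      (dilate_dilate _ _ (Units.inv_mul u) A).symm⟩
  · rintro ⟨b, ⟨u, rfl⟩, A₀, hA₀, rfl⟩
    refine ⟨(↑u⁻¹ : ZMod (p * q)), Units.isUnit _, ?_⟩
    have h2 : (dilate (u : ZMod (p * q)) A₀).image (fun a => (↑u⁻¹ : ZMod (p * q)) * a) = A₀ :=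
      dilate_dilate _ _ (Units.inv_mul u) A₀
    rw [h2]
    exact hA₀

end Pool.Agent.Results.MP_10af71_co.LargeClosePrimes
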